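import Pool.Agent.Run7.h225.HP.Iface2
import Pool.Agent.Run7.h160.HP.PLS

/-!
# Piece HQ_PLW: the system of the polylogarithms, all entries
-/

set_option autoImplicit false

open PowerSeries Matrix
open Pool.Agent.Y113 hiding Bm
open Pool.Agent.Y120.GF Pool.Agent.Y119.HZ
open Pool.Agent.Y120.GH hiding wd
open Pool.Agent.Y119.HY (cm E Hf Yf Vr Rel Gal Sol)
open Pool.Agent.Run7.h225.HG
open Pool.Agent.Run7.h225.HP
open Pool.Agent.Run7.h160.HP
open Pool.Agent.Y119.ML (In const_In)

namespace Pool.Agent.Run7.h586.HP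

/-- the holomorphic part of the fundamental matrix -/
noncomputable def HM (W : ℕ) : Matrix (Fin (Fintype.card (WW W))) (Fin (Fintype.card (WW W))) ℚ⟦X⟧ :=
  Matrix.of fun i j => HH (wd i) (wd j)

/-- the proof of `Pool.Agent.Run7.h160.HP.PLS`, with the matrices -/
theorem sysW (W : ℕ) : ∃ (N B : Matrix (Fin (Fintype.card (WW W))) (Fin (Fintype.card (WW W))) ℚ)
    (V : Matrix (Fin (Fintype.card (WW W))) (Fin (Fintype.card (WW W))) ℚ⟦X⟧),
    Sys (Fintype.card (WW W)) N B (HM W) V := by
  classical
  set m := Fintype.card (WW W) with hm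
  let N : Matrix (Fin m) (Fin m) ℚ := Matrix.of fun i j => if wd i = false :: wd j then 1 else 0
  let B : Matrix (Fin m) (Fin m) ℚ := Matrix.of fun i j => if wd i = true :: wd j then 1 else 0
  let H : Matrix (Fin m) (Fin m) ℚ⟦X⟧ := HM W
  let V : Matrix (Fin m) (Fin m) ℚ⟦X⟧ := ∑ i ∈ Finset.range (W + 1), (1 - H) ^ i
  have hN : ∀ i j, (wd i).length ≤ (wd j).length → N i j = 0 := by
    intro i j h
    show (if wd i = false :: wd j then (1 : ℚ) else 0) = 0
    rw [if_neg]
    intro h1
    rw [h1, List.length_cons] at h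
    omega
  have hH : ∀ i j, (wd i).length ≤ (wd j).length → (1 - H) i j = 0 := by
    intro i j h
    rw [Matrix.sub_apply]
    show _ - HH (wd i) (wd j) = 0
    by_cases hij : i = j
    · subst hij
      rw [Matrix.one_apply_eq]
      have := HH_app [] (wd i)
      rw [List.nil_append] at this
      rw [this, hw_nil, sub_self]
    · rw [Matrix.one_apply_ne hij, HH_not, sub_zero]
      intro h1
      exact hij (wd_inj (h1.eq_of_length_le h).symm)
  have hNp := nilp' (fun i => (wd i).length) N W wd_len hN
  have hHp := nilp' (fun i => (wd i).length) (1 - H) W wd_len hH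
  have hmW : W + 1 ≤ m := by
    have h1 : Function.Injective (fun k : Fin (W + 1) =>
        (⟨List.replicate k.val true, by rw [List.length_replicate]; omega⟩ : WW W)) := by
      intro k k' h
      have h2 := congrArg (fun w : WW W => w.1.length) h
      simp only [List.length_replicate] at h2
      exact Fin.ext h2
    simpa using Fintype.card_le_of_injective _ h1
  have eHN : ∀ k i j, (cf H k * N) i j = coeff k (HH (wd i) (false :: wd j)) := by
    intro k i j
    rw [Matrix.mul_apply]
    have := sum_wd (W := W) (fun w => coeff k (HH (wd i) w)) (false :: wd j) (fun h => by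
      rw [HH_len (lt_of_le_of_lt (wd_len i) h), map_zero])
    rw [← this]
    refine Finset.sum_congr rfl fun x _ => ?_
    show coeff k (HH (wd i) (wd x)) * (if wd x = false :: wd j then (1 : ℚ) else 0) = _
    rw [mul_ite, mul_one, mul_zero]
  have eT : ∀ (b : Bool) (M : Matrix (Fin m) (Fin m) ℚ),
      (M = Matrix.of fun i j => if wd i = b :: wd j then 1 else 0) → ∀ k i j,
      (∀ u, wd i = b :: u → (M * cf H k) i j = coeff k (HH u (wd j))) ∧
      ((∀ u, wd i ≠ b :: u) → (M * cf H k) i j = 0) := by
    intro b M hM k i j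
    constructor
    · intro u hu
      rw [Matrix.mul_apply]
      have hlu : u.length ≤ W := by
        have := wd_len i
        rw [hu, List.length_cons] at this
        omega
      have := sum_wd (W := W) (fun w => coeff k (HH w (wd j))) u (fun h => by omega)
      rw [← this]
      refine Finset.sum_congr rfl fun x _ => ?_
      rw [hM]
      show (if wd i = b :: wd x then (1 : ℚ) else 0) * coeff k (HH (wd x) (wd j)) = _
      rw [hu, ite_mul, one_mul, zero_mul]
      by_cases hx : wd x = u
      · rw [if_pos (by rw [hx]), if_pos hx]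
      · rw [if_neg (fun h => hx (List.cons_injective h).symm), if_neg hx]
    · intro hu
      rw [Matrix.mul_apply]
      refine Finset.sum_eq_zero fun x _ => ?_
      rw [hM]
      show (if wd i = b :: wd x then (1 : ℚ) else 0) * coeff k (HH (wd x) (wd j)) = _
      rw [if_neg (hu _), zero_mul]
  have eTL : ∀ k i j, coeff k (TL (wd i) (wd j)) =
      (N * cf H k) i j + ∑ l ∈ Finset.range k, (B * cf H l) i j := by
    intro k i j
    have hNk := eT false N rfl k i j
    have hBk := fun l => eT true B rfl l i j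
    rcases hwi : wd i with _ | ⟨b, u⟩
    · rw [hNk.2 (fun u h => by rw [hwi] at h; exact List.cons_ne_nil _ _ h.symm)]
      rw [Finset.sum_eq_zero fun l _ => (hBk l).2 (fun u h => by
        rw [hwi] at h; exact List.cons_ne_nil _ _ h.symm)]
      show coeff k (0 : ℚ⟦X⟧) = _
      rw [map_zero, add_zero]
    · cases b
      · rw [hNk.1 u hwi, Finset.sum_eq_zero fun l _ => (hBk l).2 (fun u' h => by
          rw [hwi] at h; simp at h), add_zero]
        rfl
      · rw [hNk.2 (fun u' h => by rw [hwi] at h; simp at h), zero_add]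
        show coeff k (GG * HH u (wd j)) = _
        rw [coeff_GG]
        exact Finset.sum_congr rfl fun l _ => ((hBk l).1 u hwi).symm
  have emain : ∀ (k : ℕ) i j, (k : ℚ) * cf H k i j + (cf H k * N) i j - (N * cf H k) i j =
      ∑ l ∈ Finset.range k, (B * cf H l) i j := by
    intro k i j
    have h1 := main (wd i) (wd j) k
    rw [eTL, ← eHN] at h1
    have h2 : cf H k i j = coeff k (HH (wd i) (wd j)) := rfl
    rw [h2, h1]
    ring
  refine ⟨N, B, V, ⟨?_, ?_, ?_, ?_, ?_, ?_, ?_⟩⟩
  · refine ⟨fun i j => if wd i = false :: wd j then 1 else 0, fun i j => ?_⟩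
    by_cases h : wd i = false :: wd j
    · simp [N, h]
    · simp [N, h]
  · exact pow_eq_zero_of_le hmW hNp
  · ext i j
    show coeff 0 (HH (wd i) (wd j)) = _
    by_cases hij : i = j
    · subst hij
      have := HH_app [] (wd i)
      rw [List.nil_append] at this
      rw [this, hw_nil, Matrix.one_apply_eq]
      simp
    · rw [Matrix.one_apply_ne hij]
      by_cases h : wd j <:+ wd i
      · obtain ⟨w, hw⟩ := h
        rw [← hw, HH_app]
        refine cc_hw w ?_
        rintro rfl
        rw [List.nil_append] at hw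
        exact hij (wd_inj hw).symm
      · rw [HH_not h, map_zero]
  · intro k
    ext i j
    have h1 := emain (k + 1) i j
    have h2 := emain k i j
    rw [Finset.sum_range_succ, ← h2] at h1
    simp only [Matrix.add_apply, Matrix.smul_apply, Matrix.sub_apply, smul_eq_mul]
    push_cast at h1
    linarith
  · show H * V = 1
    have h1 := mul_neg_geom_sum (1 - H) (W + 1)
    rw [sub_sub_cancel, hHp, sub_zero] at h1
    exact h1
  · intro i j
    exact SDc_HH _ _
  · intro i j
    show SDc ((∑ k ∈ Finset.range (W + 1), (1 - H) ^ k) i j)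
    rw [Matrix.sum_apply]
    refine SDc.sum' _ fun k hk => ?_
    clear hk
    have h1 : ∀ i j, SDc ((1 - H) i j) := by
      intro i j
      rw [Matrix.sub_apply]
      refine SDc_sub ?_ (SDc_HH _ _)
      rw [Matrix.one_apply]
      split_ifs
      · exact SDc.one
      · exact SDc_zero
    clear emain eTL eT eHN hHp hNp
    induction k generalizing i j with
    | zero =>
      rw [pow_zero, Matrix.one_apply]
      split_ifs
      · exact SDc.one
      · exact SDc_zero
    | succ k ih =>
      rw [pow_succ]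
      exact SDc_matmul (fun i j => ih i j) h1 i j

/-! ### the entries -/

/-- integration as a linear map -/
noncomputable def InL : ℚ⟦X⟧ →ₗ[ℚ] ℚ⟦X⟧ where
  toFun := In
  map_add' f g := by
    ext k
    simp only [In, coeff_mk, map_add, add_div]
  map_smul' c f := by
    ext k
    simp only [In, coeff_mk, map_smul, smul_eq_mul, mul_div_assoc, RingHom.id_apply]

lemma In_lw (w : List Bool) : In (lw w) = lw (false :: w) := by
  ext k
  rw [In, coeff_mk, lw, coeff_mk, lw, coeff_mk]
  rfl

lemma In_GG_lw (w : List Bool) : In (GG * lw w) = lw (true :: w) := by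
  ext k
  rw [In, coeff_mk, coeff_GG]
  have h1 : coeff k (lw (true :: w)) = (∑ j ∈ Finset.range k, cw w j) / (k : ℚ) := by
    rw [lw, coeff_mk]
    rfl
  rw [h1]
  congr 1
  refine Finset.sum_congr rfl fun j _ => ?_
  rw [lw, coeff_mk]

lemma lw_nil : lw [] = 1 := by
  ext k
  rw [lw, coeff_mk, coeff_one]
  rfl

lemma lw_false : lw [false] = 0 := by
  ext k
  rw [lw, coeff_mk, map_zero]
  show (if k = 0 then (1 : ℚ) else 0) / (k : ℚ) = 0
  split_ifs with h
  · rw [h, Nat.cast_zero, div_zero]
  · rw [zero_div]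

lemma hw_adm (w : List Bool) (h : Adm w) : hw w = lw w := by
  induction w with
  | nil => rw [hw_nil, lw_nil]
  | cons a u ih =>
    have h1 := ih (Adm_cons h)
    have h2 : la (a :: u) = 0 := if_neg h
    rw [hw_cons, h2, sub_zero]
    cases a
    · show In (hw u) = _
      rw [h1, In_lw]
    · show In (GG * hw u) = _
      rw [h1, In_GG_lw]

/-- the admissible words of length `n` -/
def SA (n : ℕ) : Submodule ℚ ℚ⟦X⟧ := Submodule.span ℚ (lw '' {w | Adm w ∧ w.length = n})

lemma SA_In {n : ℕ} {f : ℚ⟦X⟧} (h : f ∈ SA n) : In f ∈ SA (n + 1) := by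
  have h1 : SA n ≤ (SA (n + 1)).comap InL := by
    unfold SA
    rw [Submodule.span_le]
    rintro _ ⟨w, ⟨hw1, hw2⟩, rfl⟩
    show In (lw w) ∈ SA (n + 1)
    rw [In_lw]
    by_cases h0 : w = []
    · rw [h0, lw_false]
      exact Submodule.zero_mem _
    · exact Submodule.subset_span ⟨false :: w, ⟨Adm_of_ne hw1 h0, by rw [List.length_cons, hw2]⟩, rfl⟩
  exact h1 h

lemma SA_GG {n : ℕ} {f : ℚ⟦X⟧} (h : f ∈ SA n) : In (GG * f) ∈ SA (n + 1) := by
  have h1 : SA n ≤ (SA (n + 1)).comap (InL ∘ₗ LinearMap.mulLeft ℚ GG) := by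
    unfold SA
    rw [Submodule.span_le]
    rintro _ ⟨w, ⟨hw1, hw2⟩, rfl⟩
    show In (GG * lw w) ∈ SA (n + 1)
    rw [In_GG_lw]
    refine Submodule.subset_span ⟨true :: w, ⟨?_, by rw [List.length_cons, hw2]⟩, rfl⟩
    by_cases h0 : w = []
    · subst h0
      unfold Adm
      simp
    · exact Adm_of_ne hw1 h0
  exact h1 h

lemma hw_SA (n : ℕ) : ∀ w : List Bool, w.length = n → hw w ∈ SA n := by
  induction n with
  | zero =>
    intro w hw0
    rw [List.length_eq_zero_iff] at hw0
    subst hw0
    rw [hw_nil, ← lw_nil]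
    refine Submodule.subset_span ⟨[], ⟨?_, rfl⟩, rfl⟩
    unfold Adm
    simp
  | succ n ih =>
    intro w hwn
    obtain ⟨a, u, rfl⟩ := List.exists_cons_of_ne_nil (l := w) (by rintro rfl; simp at hwn)
    rw [List.length_cons, Nat.add_right_cancel_iff] at hwn
    have h1 : In (tl (a :: u)) ∈ SA (n + 1) := by
      cases a
      · exact SA_In (ih u hwn)
      · exact SA_GG (ih u hwn)
    have h2 : In (la (a :: u)) ∈ SA (n + 1) := by
      apply SA_In
      unfold la
      split_ifs
      · refine ih _ ?_
        simp [hwn]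
      · exact Submodule.zero_mem _
    rw [hw_cons]
    have h3 : In (tl (a :: u) - la (a :: u)) = In (tl (a :: u)) - In (la (a :: u)) :=
      map_sub InL _ _
    rw [h3]
    exact Submodule.sub_mem _ h1 h2

lemma HH_mem (W : ℕ) (u v : List Bool) (hu : u.length ≤ W) :
    HH u v ∈ Submodule.span ℚ (Set.range fun w : Wd W => lw w.1) := by
  unfold HH
  split_ifs
  · have h1 := hw_SA _ (u.take (u.length - v.length)) rfl
    refine Submodule.span_mono ?_ h1
    rintro _ ⟨w, ⟨h2, h3⟩, rfl⟩
    refine ⟨⟨w, ?_, h2⟩, rfl⟩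
    rw [h3, List.length_take]
    omega
  · exact Submodule.zero_mem _

/-- **PLW** -/
theorem p_PLW : S_PLW := by
  classical
  intro W
  obtain ⟨N, B, V, hS⟩ := sysW W
  let e : Wd W → Fin (Fintype.card (WW W)) × Fin (Fintype.card (WW W)) := fun w =>
    (Fintype.equivFin (WW W) ⟨w.1, w.2.1⟩, Fintype.equivFin (WW W) ⟨[], Nat.zero_le _⟩)
  have he1 : ∀ w, wd (e w).1 = w.1 := by
    intro w
    show ((Fintype.equivFin (WW W)).symm (Fintype.equivFin (WW W) ⟨w.1, w.2.1⟩)).1 = _
    rw [Equiv.symm_apply_apply]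
  have he2 : ∀ w, wd (e w).2 = [] := by
    intro w
    show ((Fintype.equivFin (WW W)).symm (Fintype.equivFin (WW W) ⟨[], Nat.zero_le _⟩)).1 = _
    rw [Equiv.symm_apply_apply]
  have hei : ∀ w w', e w = e w' → w = w' := by
    intro w w' h
    apply Subtype.ext
    rw [← he1 w, ← he1 w', h]
  have hex : ∀ a b, ∃ c : Wd W → ℚ, HM W a b = ∑ w, PowerSeries.C (c w) * lw w.1 := by
    intro a b
    obtain ⟨c, hc⟩ := (Submodule.mem_span_range_iff_exists_fun ℚ).1
      (HH_mem W (wd a) (wd b) (wd_len a))
    refine ⟨c, ?_⟩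
    show HH (wd a) (wd b) = _
    rw [← hc]
    exact Finset.sum_congr rfl fun w _ => PowerSeries.smul_eq_C_mul _ _
  choose c hc using hex
  let c' : Fin (Fintype.card (WW W)) → Fin (Fintype.card (WW W)) → Wd W → ℚ := fun a b =>
    if h : ∃ w, e w = (a, b) then Pi.single h.choose 1 else c a b
  have hc' : ∀ w, c' (e w).1 (e w).2 = Pi.single w 1 := by
    intro w
    have h : ∃ w', e w' = ((e w).1, (e w).2) := ⟨w, rfl⟩
    show (if h : ∃ w', e w' = ((e w).1, (e w).2) then Pi.single h.choose (1 : ℚ)
      else c (e w).1 (e w).2) = _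
    rw [dif_pos h]
    congr 1
    exact hei _ _ h.choose_spec
  refine ⟨_, N, B, HM W, V, c', e, hS, ?_, hc'⟩
  intro a b
  by_cases h : ∃ w, e w = (a, b)
  · obtain ⟨w, hw⟩ := h
    have h1 : a = (e w).1 := by rw [hw]
    have h2 : b = (e w).2 := by rw [hw]
    subst h1 h2
    rw [hc' w]
    have h3 : HM W (e w).1 (e w).2 = lw w.1 := by
      show HH (wd (e w).1) (wd (e w).2) = _
      rw [he1, he2, ← hw_adm w.1 w.2.2]
      have := HH_app w.1 []
      rwa [List.append_nil] at this
    rw [h3, Finset.sum_eq_single w]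
    · rw [Pi.single_eq_same, map_one, one_mul]
    · intro w' _ hne
      rw [Pi.single_eq_of_ne hne, map_zero, zero_mul]
    · intro hn
      exact absurd (Finset.mem_univ _) hn
  · show _ = ∑ w, PowerSeries.C ((if h : ∃ w, e w = (a, b) then Pi.single h.choose (1 : ℚ)
      else c a b) w) * lw w.1
    rw [dif_neg h]
    exact hc a b

end Pool.Agent.Run7.h586.HP
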