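import Pool.Agent.Run7.h225.HP.Iface2

/-!
# Piece HQ_WORD: indices and words
-/

set_option autoImplicit false

open PowerSeries
open Pool.Agent.Run7.h225.HP

namespace Pool.Agent.Run7.h586.HP

/-- the word of an index -/
def wo : List ℕ → List Bool
  | [] => []
  | s :: l => List.replicate (s - 1) false ++ true :: wo l

/-- the index of a word -/
def ix' : List Bool → List ℕ
  | [] => []
  | true :: w => 1 :: ix' w
  | false :: w => match ix' w with
    | [] => []
    | a :: l => (a + 1) :: l

lemma ix_rep (n : ℕ) (w : List Bool) :
    ix' (List.replicate n false ++ true :: w) = (n + 1) :: ix' w := by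
  induction n with
  | zero => rfl
  | succ n ih =>
    rw [List.replicate_succ, List.cons_append]
    show (match ix' (List.replicate n false ++ true :: w) with
      | [] => []
      | a :: l => (a + 1) :: l) = _
    rw [ih]

lemma ix_wo (s : List ℕ) (h : ∀ x ∈ s, 1 ≤ x) : ix' (wo s) = s := by
  induction s with
  | nil => rfl
  | cons a l ih =>
    have ha : 1 ≤ a := h a List.mem_cons_self
    rw [wo, ix_rep, ih fun x hx => h x (List.mem_cons_of_mem _ hx)]
    congr 1
    omega

lemma wo_length (s : List ℕ) (h : ∀ x ∈ s, 1 ≤ x) : (wo s).length = s.sum := by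
  induction s with
  | nil => rfl
  | cons a l ih =>
    have ha : 1 ≤ a := h a List.mem_cons_self
    rw [wo, List.length_append, List.length_replicate, List.length_cons,
      ih fun x hx => h x (List.mem_cons_of_mem _ hx), List.sum_cons]
    omega

lemma Adm_true {w : List Bool} (h : Adm w) : Adm (true :: w) := by
  rcases w with _ | ⟨b, w⟩
  · unfold Adm; simp
  · exact Adm_of_ne h (List.cons_ne_nil _ _)

lemma wo_adm (s : List ℕ) : Adm (wo s) := by
  induction s with
  | nil => unfold Adm; simp [wo]
  | cons a l ih =>
    rw [wo]
    generalize a - 1 = n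
    induction n with
    | zero => exact Adm_true ih
    | succ n ihn =>
      rw [List.replicate_succ, List.cons_append]
      refine Adm_of_ne ihn ?_
      simp

lemma ix_ne {w : List Bool} (h : Adm w) (hw : w ≠ []) : ix' w ≠ [] := by
  induction w with
  | nil => exact absurd rfl hw
  | cons b w ih =>
    cases b
    · have hw' : w ≠ [] := by
        rintro rfl
        unfold Adm at h
        simp at h
      have h1 := ih (Adm_cons h) hw'
      unfold ix'
      split
      · rename_i h2; exact absurd h2 h1
      · simp
    · simp [ix']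

lemma ix_pos (w : List Bool) : ∀ x ∈ ix' w, 1 ≤ x := by
  induction w with
  | nil => simp [ix']
  | cons b w ih =>
    cases b
    · unfold ix'
      split
      · simp
      · rename_i a l h2
        intro x hx
        rw [h2] at ih
        rcases List.mem_cons.1 hx with rfl | hx
        · omega
        · exact ih x (List.mem_cons_of_mem _ hx)
    · unfold ix'
      intro x hx
      rcases List.mem_cons.1 hx with rfl | hx
      · exact le_rfl
      · exact ih x hx

lemma wo_ix (w : List Bool) (h : Adm w) : wo (ix' w) = w := by
  induction w with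
  | nil => rfl
  | cons b w ih =>
    have h1 := ih (Adm_cons h)
    cases b
    · have hw' : w ≠ [] := by
        rintro rfl
        unfold Adm at h
        simp at h
      have h2 := ix_ne (Adm_cons h) hw'
      have h3 := ix_pos w
      unfold ix'
      split
      · rename_i h4; exact absurd h4 h2
      · rename_i a l h4
        rw [h4] at h1 h3
        have ha : 1 ≤ a := h3 a List.mem_cons_self
        rw [wo] at h1 ⊢
        obtain ⟨a, rfl⟩ : ∃ a', a = a' + 1 := ⟨a - 1, by omega⟩
        rw [Nat.add_sub_cancel] at h1 ⊢
        rw [List.replicate_succ, List.cons_append, h1]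
    · unfold ix'
      rw [wo, h1]
      rfl

lemma cw_rep (n : ℕ) (w : List Bool) (k : ℕ) :
    cw (List.replicate n false ++ true :: w) k = (∑ j ∈ Finset.range k, cw w j) / (k : ℚ) ^ (n + 1) := by
  induction n with
  | zero => rw [pow_one]; rfl
  | succ n ih =>
    rw [List.replicate_succ, List.cons_append]
    show cw (List.replicate n false ++ true :: w) k / (k : ℚ) = _
    rw [ih, div_div, ← pow_succ]

lemma mz_wo (s : List ℕ) (h : ∀ x ∈ s, 1 ≤ x) (k : ℕ) : mz s k = cw (wo s) k := by
  induction s generalizing k with
  | nil => rfl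
  | cons a l ih =>
    have ha : 1 ≤ a := h a List.mem_cons_self
    have ih' := ih fun x hx => h x (List.mem_cons_of_mem _ hx)
    rw [wo, cw_rep]
    unfold mz
    rw [show a - 1 + 1 = a by omega]
    congr 1
    exact Finset.sum_congr rfl fun j _ => ih' j

/-- **WORD** -/
theorem p_WORD : S_WORD := by
  intro W
  refine ⟨⟨fun s => ⟨wo s.1, by rw [wo_length s.1 s.2.1]; exact s.2.2, wo_adm s.1⟩,
    fun w => ⟨ix' w.1, ix_pos w.1, ?_⟩, ?_, ?_⟩, ?_⟩
  · have h1 := wo_length (ix' w.1) (ix_pos w.1)
    rw [wo_ix w.1 w.2.2] at h1
    rw [← h1]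
    exact w.2.1
  · intro s
    exact Subtype.ext (ix_wo s.1 s.2.1)
  · intro w
    exact Subtype.ext (wo_ix w.1 w.2.2)
  · intro s
    ext k
    rw [li, lw, PowerSeries.coeff_mk, PowerSeries.coeff_mk]
    exact mz_wo s.1 s.2.1 k

end Pool.Agent.Run7.h586.HP
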